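import Pool.Agent.TH612.GS.Stm

set_option autoImplicit false

/-!
GS-ZM: from `GM M γ 0` to `zr γ`.
-/

namespace Pool.Agent.TH228.GS

open Complex Filter Topology MeasureTheory Set
open Pool.Agent.TH612.CF Pool.Agent.TH612.GS
open scoped ENNReal

noncomputable section

/-- difference of two products -/
lemma prod_sub_le {ι : Type*} (s : Finset ι) (f g : ι → ℂ) {K : ℝ} (hK : 1 ≤ K)
    (hf : ∀ i ∈ s, ‖f i‖ ≤ K) (hg : ∀ i ∈ s, ‖g i‖ ≤ K) :
    ‖∏ i ∈ s, f i - ∏ i ∈ s, g i‖ ≤ K ^ s.card * ∑ i ∈ s, ‖f i - g i‖ := by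
  classical
  induction s using Finset.induction_on with
  | empty => simp
  | insert a s ha ih =>
    rw [Finset.prod_insert ha, Finset.prod_insert ha, Finset.sum_insert ha,
      Finset.card_insert_of_notMem ha]
    have h1 := ih (fun i hi => hf i (Finset.mem_insert_of_mem hi))
      (fun i hi => hg i (Finset.mem_insert_of_mem hi))
    have h2 : ‖∏ i ∈ s, f i‖ ≤ K ^ s.card := by
      rw [norm_prod]
      calc ∏ i ∈ s, ‖f i‖ ≤ ∏ i ∈ s, K := Finset.prod_le_prod (fun _ _ => norm_nonneg _)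
            (fun i hi => hf i (Finset.mem_insert_of_mem hi))
        _ = _ := by simp
    have h3 : f a * ∏ i ∈ s, f i - g a * ∏ i ∈ s, g i = (f a - g a) * ∏ i ∈ s, f i +
        g a * (∏ i ∈ s, f i - ∏ i ∈ s, g i) := by ring
    rw [h3]
    refine (norm_add_le _ _).trans ?_
    rw [norm_mul, norm_mul]
    have hga := hg a (Finset.mem_insert_self _ _)
    have hS : 0 ≤ ∑ i ∈ s, ‖f i - g i‖ := Finset.sum_nonneg fun _ _ => norm_nonneg _
    have hK0 : 0 ≤ K := by linarith
    have hKn : 0 ≤ K ^ s.card := by positivity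
    calc ‖f a - g a‖ * ‖∏ i ∈ s, f i‖ + ‖g a‖ * ‖∏ i ∈ s, f i - ∏ i ∈ s, g i‖
        ≤ ‖f a - g a‖ * K ^ s.card + K * (K ^ s.card * ∑ i ∈ s, ‖f i - g i‖) :=
          add_le_add (mul_le_mul_of_nonneg_left h2 (norm_nonneg _))
            (mul_le_mul hga h1 (norm_nonneg _) hK0)
      _ ≤ K ^ (s.card + 1) * (‖f a - g a‖ + ∑ i ∈ s, ‖f i - g i‖) := by
        have h4 : K ^ s.card ≤ K ^ (s.card + 1) := pow_le_pow_right₀ hK (Nat.le_succ _)
        have h5 := mul_le_mul_of_nonneg_left h4 (norm_nonneg (f a - g a))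
        have h6 : K * (K ^ s.card * ∑ i ∈ s, ‖f i - g i‖) =
          K ^ (s.card + 1) * ∑ i ∈ s, ‖f i - g i‖ := by ring
        rw [h6]
        nlinarith [h5]

lemma zN_le (M : ℕ) (v : ℝ) : ‖zN M (1 + I * v)‖ ≤ 1 + Real.log M := by
  unfold zN
  refine (norm_sum_le _ _).trans ?_
  have h1 : ∀ n ∈ Finset.Icc 1 M, ‖(n : ℂ) ^ (-(1 + I * (v : ℂ)))‖ = ((n : ℝ))⁻¹ := by
    intro n hn
    have hn1 : 0 < n := (Finset.mem_Icc.1 hn).1
    rw [Complex.norm_natCast_cpow_of_pos hn1]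
    have : (-(1 + I * (v : ℂ))).re = -1 := by simp
    rw [this, Real.rpow_neg_one]
  rw [Finset.sum_congr rfl h1]
  have h2 := harmonic_le_one_add_log M
  rw [harmonic_eq_sum_Icc] at h2
  push_cast at h2
  exact h2

lemma natcpow_conj (n : ℕ) (s : ℂ) :
    (n : ℂ) ^ ((starRingEnd ℂ) s) = (starRingEnd ℂ) ((n : ℂ) ^ s) := by
  rw [Complex.cpow_conj _ _ (by rw [Complex.natCast_arg]; exact Real.pi_ne_zero.symm),
    Complex.conj_natCast]

lemma zN_conj (M : ℕ) (s : ℂ) : zN M ((starRingEnd ℂ) s) = (starRingEnd ℂ) (zN M s) := by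
  unfold zN
  rw [map_sum]
  refine Finset.sum_congr rfl fun n _ => ?_
  rw [← natcpow_conj, map_neg]

/-- the square of the difference on the 1-line -/
def hh (M : ℕ) (v : ℝ) : ℝ := ‖riemannZeta (1 + I * v) - zN M (1 + I * v)‖ ^ 2

lemma hh_nonneg (M : ℕ) (v : ℝ) : 0 ≤ hh M v := by unfold hh; positivity

lemma hh_neg (M : ℕ) (v : ℝ) : hh M (-v) = hh M v := by
  unfold hh
  have e : (1 + I * ((-v : ℝ) : ℂ)) = (starRingEnd ℂ) (1 + I * (v : ℂ)) := by
    simp
  rw [e, riemannZeta_conj, zN_conj, ← map_sub, Complex.norm_conj]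

lemma zN_cont (M : ℕ) : Continuous fun v : ℝ => zN M (1 + I * v) := by
  unfold zN
  refine continuous_finsetSum _ fun n hn => ?_
  have hn1 : (n : ℂ) ≠ 0 := by
    have := (Finset.mem_Icc.1 hn).1
    exact_mod_cast (by omega : n ≠ 0)
  exact Continuous.const_cpow (by fun_prop) (Or.inl hn1)

lemma hh_cont (M : ℕ) : ContinuousOn (hh M) {v : ℝ | v ≠ 0} := by
  intro v hv
  unfold hh
  have h1 : ContinuousAt (fun v : ℝ => riemannZeta (1 + I * v)) v := by
    have h2 : (1 + I * (v : ℂ)) ≠ 1 := by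
      intro h
      have : I * (v : ℂ) = 0 := by linear_combination h
      rcases mul_eq_zero.1 this with h3 | h3
      · exact I_ne_zero h3
      · exact hv (by exact_mod_cast h3)
    have h3 := (differentiableAt_riemannZeta h2).continuousAt
    exact ContinuousAt.comp (g := riemannZeta) (f := fun v : ℝ => (1 + I * (v : ℂ))) h3
      (by fun_prop)
  exact (((h1.sub (zN_cont M).continuousAt).norm).pow 2).continuousWithinAt

lemma hh_meas (M : ℕ) : Measurable (hh M) := by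
  refine measurable_of_continuousOn_compl_singleton 0 ?_
  exact hh_cont M

/-- the majorant -/
def H1 (M : ℕ) (T : ℝ) : ℝ → ℝ≥0∞ :=
  (Icc (T ^ (1 / 2 : ℝ)) T).indicator fun v => ENNReal.ofReal (hh M v)

/-- the symmetric majorant -/
def H2 (M : ℕ) (T : ℝ) (v : ℝ) : ℝ≥0∞ := H1 M T v + H1 M T (-v)

lemma H1_meas (M : ℕ) (T : ℝ) : Measurable (H1 M T) :=
  (hh_meas M).ennreal_ofReal.indicator measurableSet_Icc

lemma H2_meas (M : ℕ) (T : ℝ) : Measurable (H2 M T) :=
  (H1_meas M T).add ((H1_meas M T).comp measurable_neg)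

lemma le_H2 (M : ℕ) {T v : ℝ} (h1 : T ^ (1 / 2 : ℝ) ≤ |v|) (h2 : |v| ≤ T) :
    ENNReal.ofReal (hh M v) ≤ H2 M T v := by
  unfold H2
  rcases le_total 0 v with h | h
  · rw [abs_of_nonneg h] at h1 h2
    refine le_add_right ?_
    unfold H1
    rw [indicator_of_mem (show v ∈ Icc _ _ from ⟨h1, h2⟩)]
  · rw [abs_of_nonpos h] at h1 h2
    refine le_add_left ?_
    unfold H1
    rw [indicator_of_mem (show -v ∈ Icc _ _ from ⟨h1, h2⟩), hh_neg]

lemma H1_int (M : ℕ) {T : ℝ} (hT : 1 ≤ T) :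
    ∫⁻ v, H1 M T v = ENNReal.ofReal (∫ v in (T ^ (1 / 2 : ℝ))..T, hh M v) := by
  have h0 : (1 : ℝ) ≤ T ^ (1 / 2 : ℝ) := Real.one_le_rpow hT (by norm_num)
  have h1 : T ^ (1 / 2 : ℝ) ≤ T := by
    calc T ^ (1 / 2 : ℝ) ≤ T ^ (1 : ℝ) := Real.rpow_le_rpow_of_exponent_le hT (by norm_num)
      _ = T := Real.rpow_one T
  have hc : ContinuousOn (hh M) (Icc (T ^ (1 / 2 : ℝ)) T) :=
    (hh_cont M).mono fun v hv => by
      have : 0 < v := by linarith [hv.1]
      exact this.ne'
  unfold H1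
  rw [lintegral_indicator measurableSet_Icc, intervalIntegral.integral_of_le h1,
    ← integral_Icc_eq_integral_Ioc,
    ofReal_integral_eq_lintegral_ofReal (hc.integrableOn_Icc)
      (Eventually.of_forall fun v => hh_nonneg M v)]

lemma H2_int (M : ℕ) {T : ℝ} (hT : 1 ≤ T) :
    ∫⁻ v, H2 M T v = 2 * ENNReal.ofReal (∫ v in (T ^ (1 / 2 : ℝ))..T, hh M v) := by
  unfold H2
  rw [lintegral_add_left (H1_meas M T), lintegral_neg_eq_self (H1 M T), H1_int M hT, two_mul]

/-- integration over one coordinate -/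
lemma fub {ι : Type} [Fintype ι] (T : ℝ) {p q : ι} (hpq : p ≠ q) {H : ℝ → ℝ≥0∞}
    (hH : Measurable H) :
    ∫⁻ γ, H (γ p - γ q) ∂(mP ι T) ≤ (∫⁻ v, H v) * ENNReal.ofReal T ^ (Fintype.card ι - 1) := by
  classical
  unfold mP
  have hm : Measurable fun γ : ι → ℝ => H (γ p - γ q) :=
    hH.comp ((measurable_pi_apply p).sub (measurable_pi_apply q))
  rw [lintegral_eq_lmarginal_univ (0 : ι → ℝ), lmarginal_erase' _ hm (Finset.mem_univ p)]
  refine (lmarginal_mono (g := fun _ => ∫⁻ v, H v) ?_ (0 : ι → ℝ)).trans ?_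
  · intro x
    have e1 : ∀ a : ℝ, H (Function.update x p a p - Function.update x p a q) = H (a - x q) := by
      intro a
      rw [Function.update_self, Function.update_of_ne hpq.symm]
    simp only [e1]
    refine (setLIntegral_le_lintegral _ _).trans ?_
    rw [lintegral_sub_right_eq_self H (x q)]
  · unfold lmarginal
    rw [lintegral_const, Measure.pi_univ]
    simp only [Measure.restrict_apply MeasurableSet.univ, univ_inter, Real.volume_Icc, sub_zero,
      Finset.prod_const, Finset.card_univ, Fintype.card_coe]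
    rw [Finset.card_erase_of_mem (Finset.mem_univ p), Finset.card_univ]

theorem t_ZM (hONE : S_ONE) : S_ZM := by
  obtain ⟨C₁, T₁, hC₁, hT₁, hone⟩ := hONE
  intro k
  have hBF : 0 ≤ BF k (1 / 8) := by unfold BF; positivity
  set D : ℝ := BF k (1 / 8) ^ 2 * (max C₁ 2) ^ (2 * (k * k)) * (k * k) * ((k * k) * (2 * C₁))
    with hD
  have hD0 : 0 ≤ D := by rw [hD]; positivity
  refine ⟨D + 1, T₁, 2 * (k * k), by linarith, hT₁, ?_⟩
  intro T M hT hM hMT
  have hT3 : 3 ≤ T := hT₁.trans hT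
  have hT1 : 1 ≤ T := by linarith
  obtain ⟨hz, hi⟩ := hone T M hT hM hMT
  have hL : 1 ≤ Real.log T := by
    rw [Real.le_log_iff_exp_le (by linarith)]
    have := Real.exp_one_lt_d9
    linarith
  have h0 : (1 : ℝ) ≤ T ^ (1 / 2 : ℝ) := Real.one_le_rpow hT1 (by norm_num)
  have h1 : T ^ (1 / 2 : ℝ) ≤ T := by
    calc T ^ (1 / 2 : ℝ) ≤ T ^ (1 : ℝ) := Real.rpow_le_rpow_of_exponent_le hT1 (by norm_num)
      _ = T := Real.rpow_one T
  have hM1 : (1 : ℝ) ≤ M := by exact_mod_cast hM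
  have hlogM : Real.log M ≤ Real.log T :=
    Real.log_le_log (by linarith) (hMT.trans h1)
  set K : ℝ := max C₁ 2 * Real.log T with hK
  have hmx : (2 : ℝ) ≤ max C₁ 2 := le_max_right _ _
  have hK2 : 2 * Real.log T ≤ K := mul_le_mul_of_nonneg_right hmx (by linarith)
  have hK1 : 1 ≤ K := by linarith
  have hKC : C₁ * Real.log T ≤ K := mul_le_mul_of_nonneg_right (le_max_left _ _) (by linarith)
  have hzN : ∀ v : ℝ, ‖zN M (1 + I * v)‖ ≤ K := fun v => (zN_le M v).trans (by linarith)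
  set A : ℝ := BF k (1 / 8) ^ 2 * K ^ (2 * (k * k)) * (k * k) with hA
  have hA0 : 0 ≤ A := by rw [hA]; positivity
  -- the pointwise bound
  have hpt : ∀ γ ∈ Sep k T, ENNReal.ofReal (‖GM M γ 0 - zr γ‖ ^ 2) ≤
      ENNReal.ofReal A * ∑ p : Fin k × Fin k, H2 M T (γ (Sum.inl p.1) - γ (Sum.inr p.2)) := by
    intro γ hγ
    obtain ⟨hγ1, hγ2⟩ := hγ
    set v : Fin k × Fin k → ℝ := fun p => γ (Sum.inl p.1) - γ (Sum.inr p.2) with hv
    have hv1 : ∀ p, T ^ (1 / 2 : ℝ) ≤ |v p| := fun p => hγ2 _ _ (by simp)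
    have hv2 : ∀ p, |v p| ≤ T := by
      intro p
      rw [abs_le]
      have a1 := hγ1 (Sum.inl p.1)
      have a2 := hγ1 (Sum.inr p.2)
      constructor <;> simp only [hv] <;> linarith [a1.1, a1.2, a2.1, a2.2]
    have e1 : GM M γ 0 = FH (fun j => (γ (Sum.inl j) : ℂ)) (fun j => (γ (Sum.inr j) : ℂ)) *
        ∏ p : Fin k × Fin k, zN M (1 + I * (v p : ℂ)) := by
      unfold GM
      rw [Fintype.prod_prod_type]
      simp [hv]
    have e2 : zr γ = FH (fun j => (γ (Sum.inl j) : ℂ)) (fun j => (γ (Sum.inr j) : ℂ)) *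
        ∏ p : Fin k × Fin k, riemannZeta (1 + I * (v p : ℂ)) := by
      unfold zr zab
      rw [Fintype.prod_prod_type]
      congr 1
      refine Finset.prod_congr rfl fun j _ => Finset.prod_congr rfl fun l _ => ?_
      congr 1
      simp only [hv]
      push_cast
      ring
    have hFH : ‖FH (fun j => (γ (Sum.inl j) : ℂ)) (fun j => (γ (Sum.inr j) : ℂ))‖ ≤
        BF k (1 / 8) := by
      refine FH_le (by norm_num) fun j => ?_
      simp
    have hz' : ∀ p, ‖riemannZeta (1 + I * (v p : ℂ))‖ ≤ K := fun p =>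
      (hz (v p) (h0.trans (hv1 p)) (hv2 p)).trans hKC
    have h2 := prod_sub_le Finset.univ (fun p : Fin k × Fin k => zN M (1 + I * (v p : ℂ)))
      (fun p => riemannZeta (1 + I * (v p : ℂ))) hK1 (fun p _ => hzN (v p)) (fun p _ => hz' p)
    have hcard : (Finset.univ : Finset (Fin k × Fin k)).card = k * k := by simp
    rw [hcard] at h2
    have h3 : ‖GM M γ 0 - zr γ‖ ≤ BF k (1 / 8) * (K ^ (k * k) *
        ∑ p : Fin k × Fin k, ‖zN M (1 + I * (v p : ℂ)) - riemannZeta (1 + I * (v p : ℂ))‖) := by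
      rw [e1, e2, ← mul_sub, norm_mul]
      exact mul_le_mul hFH h2 (norm_nonneg _) hBF
    have h4 : (∑ p : Fin k × Fin k,
        ‖zN M (1 + I * (v p : ℂ)) - riemannZeta (1 + I * (v p : ℂ))‖) ^ 2 ≤
        (k * k) * ∑ p : Fin k × Fin k, hh M (v p) := by
      have := sq_sum_le_card_mul_sum_sq (s := (Finset.univ : Finset (Fin k × Fin k)))
        (f := fun p => ‖zN M (1 + I * (v p : ℂ)) - riemannZeta (1 + I * (v p : ℂ))‖)
      rw [hcard] at this
      push_cast at this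
      refine this.trans (le_of_eq ?_)
      congr 1
      refine Finset.sum_congr rfl fun p _ => ?_
      unfold hh
      rw [norm_sub_rev]
    have h5 : ‖GM M γ 0 - zr γ‖ ^ 2 ≤ A * ∑ p : Fin k × Fin k, hh M (v p) := by
      calc ‖GM M γ 0 - zr γ‖ ^ 2 ≤ (BF k (1 / 8) * (K ^ (k * k) *
            ∑ p : Fin k × Fin k,
              ‖zN M (1 + I * (v p : ℂ)) - riemannZeta (1 + I * (v p : ℂ))‖)) ^ 2 :=
            pow_le_pow_left₀ (norm_nonneg _) h3 2
        _ = BF k (1 / 8) ^ 2 * K ^ (2 * (k * k)) * (∑ p : Fin k × Fin k,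
              ‖zN M (1 + I * (v p : ℂ)) - riemannZeta (1 + I * (v p : ℂ))‖) ^ 2 := by
            rw [mul_comm 2 (k * k), pow_mul]; ring
        _ ≤ BF k (1 / 8) ^ 2 * K ^ (2 * (k * k)) * ((k * k) *
              ∑ p : Fin k × Fin k, hh M (v p)) :=
            mul_le_mul_of_nonneg_left h4 (by positivity)
        _ = _ := by rw [hA]; ring
    calc ENNReal.ofReal (‖GM M γ 0 - zr γ‖ ^ 2)
        ≤ ENNReal.ofReal (A * ∑ p : Fin k × Fin k, hh M (v p)) := ENNReal.ofReal_le_ofReal h5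
      _ = ENNReal.ofReal A * ∑ p : Fin k × Fin k, ENNReal.ofReal (hh M (v p)) := by
          rw [ENNReal.ofReal_mul hA0, ENNReal.ofReal_sum_of_nonneg fun p _ => hh_nonneg M _]
      _ ≤ _ := by
          gcongr with p
          exact le_H2 M (hv1 p) (hv2 p)
  have hmeas : ∀ p : Fin k × Fin k, Measurable fun γ : Fin k ⊕ Fin k → ℝ =>
      H2 M T (γ (Sum.inl p.1) - γ (Sum.inr p.2)) := fun p =>
    (H2_meas M T).comp ((measurable_pi_apply _).sub (measurable_pi_apply _))
  have hmeasS : Measurable fun γ : Fin k ⊕ Fin k → ℝ => ENNReal.ofReal A *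
      ∑ p : Fin k × Fin k, H2 M T (γ (Sum.inl p.1) - γ (Sum.inr p.2)) :=
    (Finset.measurable_fun_sum _ fun p _ => hmeas p).const_mul _
  calc ∫⁻ γ in Sep k T, ENNReal.ofReal (‖GM M γ 0 - zr γ‖ ^ 2) ∂(mP (Fin k ⊕ Fin k) T)
      ≤ ∫⁻ γ in Sep k T, ENNReal.ofReal A *
          ∑ p : Fin k × Fin k, H2 M T (γ (Sum.inl p.1) - γ (Sum.inr p.2))
            ∂(mP (Fin k ⊕ Fin k) T) := setLIntegral_mono hmeasS hpt
    _ ≤ ∫⁻ γ, ENNReal.ofReal A *
          ∑ p : Fin k × Fin k, H2 M T (γ (Sum.inl p.1) - γ (Sum.inr p.2))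
            ∂(mP (Fin k ⊕ Fin k) T) := setLIntegral_le_lintegral _ _
    _ = ENNReal.ofReal A * ∑ p : Fin k × Fin k,
          ∫⁻ γ, H2 M T (γ (Sum.inl p.1) - γ (Sum.inr p.2)) ∂(mP (Fin k ⊕ Fin k) T) := by
        rw [lintegral_const_mul _ (Finset.measurable_fun_sum _ fun p _ => hmeas p),
          lintegral_finsetSum _ fun p _ => hmeas p]
    _ ≤ ENNReal.ofReal A * ∑ p : Fin k × Fin k,
          ENNReal.ofReal (2 * (C₁ * T / M) * T ^ (2 * k - 1)) := by
        gcongr with p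
        refine (fub T (by simp) (H2_meas M T)).trans ?_
        rw [H2_int M hT1]
        have e1 : Fintype.card (Fin k ⊕ Fin k) - 1 = 2 * k - 1 := by simp; omega
        have hT0 : 0 ≤ T := by linarith
        rw [e1, ENNReal.ofReal_mul (by positivity), ENNReal.ofReal_mul (by norm_num),
          ENNReal.ofReal_pow hT0, ENNReal.ofReal_ofNat]
        gcongr
        exact hi
    _ ≤ ENNReal.ofReal ((D + 1) * Real.log T ^ (2 * (k * k)) * T ^ (2 * k) / M) := by
        have hT0 : 0 ≤ T := by linarith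
        rw [Finset.sum_const, Finset.card_univ, Fintype.card_prod, Fintype.card_fin,
          nsmul_eq_mul, ← ENNReal.ofReal_natCast, ← ENNReal.ofReal_mul (by positivity),
          ← ENNReal.ofReal_mul hA0]
        refine ENNReal.ofReal_le_ofReal ?_
        rcases Nat.eq_zero_or_pos k with hk | hk
        · subst hk
          simp only [Nat.cast_zero, zero_mul, mul_zero, pow_zero]
          have : (0 : ℝ) < M := by linarith
          positivity
        · have e2 : T * T ^ (2 * k - 1) = T ^ (2 * k) := by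
            rw [← pow_succ']
            congr 1
            omega
          have e3 : A * (((k * k : ℕ) : ℝ) * (2 * (C₁ * T / M) * T ^ (2 * k - 1))) =
              D * Real.log T ^ (2 * (k * k)) * T ^ (2 * k) / M := by
            rw [← e2, hA, hD, hK, mul_pow]
            push_cast
            ring
          rw [e3]
          gcongr
          linarith

end

end Pool.Agent.TH228.GS
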